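import Pool.Agent.H207.BT.Stm5
import Pool.Graph.R_seed8.H790R3.RB.Basic
import Pool.Graph.R_seed8.H790R3.RB.TWR

set_option autoImplicit false

namespace Pool.Agent.H69.BT207

open Pool.Agent.H790R3.RB Pool.Agent.H211.HY Pool.Agent.H207.BT

theorem wr_smul' {d : ℕ} (x : CV d) (a : ℂ) (p : ℂ × ℂ) :
    wr x (a • p) = (a ^ (d - 1)) ^ 2 * wr x p := by
  rw [WR.wr_eq, WR.wr_eq, WR.SU_smul, WR.SU_smul, WR.SV_smul, WR.SV_smul]
  ring

/-- among five zeros of a nonzero quartic form two are parallel -/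
theorem quar_five (r : Fin 5 → ℂ) (hr : r ≠ 0) (q : Fin 5 → ℂ × ℂ) (hq : ∀ i, quar r (q i) = 0) :
    ∃ i j : Fin 5, i < j ∧ cr (q j) (q i) = 0 := by
  have hdet : (Matrix.projVandermonde (fun i => (q i).1) (fun i => (q i).2)).det = 0 := by
    apply Matrix.exists_mulVec_eq_zero_iff.1
    refine ⟨r, hr, ?_⟩
    funext i
    rw [Matrix.mulVec, dotProduct, Pi.zero_apply, ← hq i, quar]
    apply Finset.sum_congr rfl
    intro j _
    rw [Matrix.projVandermonde_apply, mul_comm]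
    congr 3
    rw [Fin.val_rev]
    omega
  rw [Matrix.det_projVandermonde, Finset.prod_eq_zero_iff] at hdet
  obtain ⟨i, _, hi⟩ := hdet
  rw [Finset.prod_eq_zero_iff] at hi
  obtain ⟨j, hj, hij⟩ := hi
  refine ⟨i, j, Finset.mem_Ioi.1 hj, ?_⟩
  rw [cr]
  linear_combination hij

theorem t_LATL : Pool.Agent.H207.BT.S_LATL := by
  intro d x hd hN hC hL p hp hw
  obtain ⟨r, hr, hR⟩ := hL
  have hd3 : ((d : ℂ)) ^ 3 ≠ 0 := pow_ne_zero 3 (by
    rw [Nat.cast_ne_zero]
    omega)
  have h1 : quar r (hF x p) = 0 := by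
    have := hR p
    rw [hw, zero_pow two_ne_zero, mul_zero] at this
    rcases mul_eq_zero.1 this.symm with h | h
    · exact absurd h hd3
    · exact h
  have h2 : ∀ n : ℕ, quar r ((hF x)^[n + 1] p) = 0 := by
    intro n
    induction n with
    | zero => exact h1
    | succ n ih =>
      have := hR ((hF x)^[n + 1] p)
      rw [ih, zero_mul] at this
      rw [Function.iterate_succ_apply']
      rcases mul_eq_zero.1 this.symm with h | h
      · exact absurd h hd3
      · exact h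
  refine ⟨?_, ?_⟩
  · obtain ⟨i, j, hij, hc⟩ := quar_five r hr (fun i => (hF x)^[(i : ℕ) + 1] p) (fun i => h2 i)
    have hlt : (i : ℕ) < (j : ℕ) := hij
    refine ⟨(i : ℕ) + 1, (j : ℕ) - (i : ℕ), by omega, ?_⟩
    have e : (i : ℕ) + 1 + ((j : ℕ) - (i : ℕ)) = (j : ℕ) + 1 := by omega
    rw [e]
    exact hc
  · intro n hn h0
    obtain ⟨C, hC0, μ, hμ, hCE⟩ := hC p hp hw
    have h3 := hCE n
    have h4 : (hF x)^[n] p ≠ 0 := fun h => hp (hN.iter n h)
    obtain ⟨a, ha, he⟩ := (cr_eq_zero_iff h4 hp).1 h0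
    have h5 : sdn x n (hF x p) = 0 := by
      rw [sdn]
      apply Finset.prod_eq_zero (Finset.mem_range.2 (Nat.sub_lt hn one_pos))
      have e : (hF x)^[n - 1] (hF x p) = (hF x)^[n] p := by
        rw [← Function.iterate_succ_apply, Nat.succ_eq_add_one, Nat.sub_add_cancel hn]
      rw [e, he, sd, wr_smul', hw, mul_zero, norm_zero, zero_mul, zero_div]
    rw [h5] at h3
    have h6 : 0 < C * μ ^ n := mul_pos hC0 (pow_pos (by linarith) n)
    linarith

end Pool.Agent.H69.BT207
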